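import Pool.Agent.H683.SC.Neg
import Pool.Agent.H683.SC.Pos

/-!
# The subgraph component polynomial can be computed from a `k`-expression in time
`2 ^ O(k log k) * N ^ O(1)`, but not in time `2 ^ o(k log k) * N ^ O(1)` under the Exponential Time
Hypothesis

Lower bound. For a connected graph `G` with `n` vertices and `m` edges let `G'` be the graph
obtained by subdividing every edge. Then `Q(G'; -1, y) = (-1) ^ n * P(G; y) + (1 - y) ^ m`, where
`P` is the chromatic polynomial: write `y ^ k(G'[A])` as the number of maps from `A` to `y` colors
that are constant on components and sum over the subdivision vertices first. A 3-CNF formula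
with `m` clauses is split into `O(m / log m)` groups of `O(log m)` clauses, each with at most
`K ≤ 8 √m` partial assignments. Choosing one partial assignment for each group without conflicts
is a `(K + 1)`-coloring problem for a graph built from a palette clique, one vertex for each
group, and gadgets of two vertices for the conflicts. Its subdivision has a (linear)
`k`-expression with `k = O(m / log m)` labels. So `k * log k = O(m)`.

Upper bound. For an integer `y = q` and a number `x = X`, the value is the weighted number of maps
from subsets `A` to `q` colors that are constant on components. Let the colors of the vertices
with label `a` be restricted to a set `S a` that is empty, one color or the set of all colors.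
These restricted sums are products for disjoint unions, they are given by inclusion and
exclusion for joins, and by symmetry only the colors `0, …, k - 1` are needed as single colors.
So a table with `(k + 2) ^ k` entries is enough. The coefficients are the digits of the value for
large `q` and `X`.
-/

set_option autoImplicit false

namespace Pool.Agent.Results.MP_c012ac_lc.TightExponent

open Pool.Agent.H683.MC Pool.Agent.H683.SC

/-- The subgraph component polynomial can be computed from a `k`-expression in time
`2 ^ O(k log k) * N ^ O(1)`. If it can be computed in time `2 ^ o(k log k) * N ^ O(1)`, then 3-SAT
with `m` clauses is decided in time `2 ^ (m / e) * |F| ^ O(1)` for all `e`. If it can be computed in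
time `2 ^ O(k) * N ^ O(1)`, then 3-SAT with `m` clauses is decided in time
`2 ^ O(m / log m) * |F| ^ O(1)`. -/
theorem result : (∃ C : ℕ, ScpTime fun k => C * (k * Nat.log 2 k + 1)) ∧
    (∀ h : ℕ → ℕ, LittleO h → ScpTime h → ThreeSatSubexp) ∧
    (ScpSinglyExponential → ThreeSatFast) :=
  ⟨Pool.Agent.NPC.H683SC.upper, Pool.Agent.NPC.H683SC.neg2, Pool.Agent.NPC.H683SC.neg1⟩

end Pool.Agent.Results.MP_c012ac_lc.TightExponent
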